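import Pool.Agent.H87.EBK.Stmts2
import Pool.Agent.H87.EBK.LAB2

/-!
Labels of a graph without `K₄`-minor in given intervals, multiplicatively independent for
exponents up to `K` (adapted from helper87's LAB2, which is adapted from helper19's row LAB).
-/

set_option autoImplicit false

namespace Pool.EBK

theorem lab3_ext (V : Type) [Fintype V] (G : SimpleGraph V) (K : ℤ) (y1 y2 : V → ℚ)
    (z : V) [DecidableEq V]
    (l' : {u : V // u ≠ z} → ℚ) (h1 : ∀ u : {u : V // u ≠ z}, y1 u < l' u ∧ l' u < y2 u)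
    (h2 : ∀ k : {u : V // u ≠ z} → ℤ, (∀ u, |k u| ≤ K) → k ≠ 0 → ∏ u, l' u ^ (k u) ≠ 1)
    (h3 : ∀ u w : {u : V // u ≠ z}, G.Adj u w → Rich (l' u) (l' w))
    (c : ℚ) (hc : y1 z < c ∧ c < y2 z)
    (hF : ∀ (k : {u : V // u ≠ z} → ℤ) (j : ℤ), (∀ u, |k u| ≤ K) → |j| ≤ K →
      j ≠ 0 → c ^ j * ∏ u, l' u ^ (k u) ≠ 1)
    (hz : ∀ u : {u : V // u ≠ z}, G.Adj z u → Rich (l' u) c) :
    ∃ l : V → ℚ, (∀ u, y1 u < l u ∧ l u < y2 u) ∧
      (∀ k : V → ℤ, (∀ u, |k u| ≤ K) → k ≠ 0 → ∏ u, l u ^ (k u) ≠ 1) ∧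
      ∀ u w, G.Adj u w → Rich (l u) (l w) := by
  refine ⟨fun u => if h : u = z then c else l' ⟨u, h⟩, ?_, ?_, ?_⟩
  · intro u
    dsimp only
    split_ifs with hu
    · rw [hu]
      exact hc
    · exact h1 ⟨u, hu⟩
  · intro k hk hk0
    rw [Fintype.prod_eq_mul_prod_subtype_ne _ z]
    have e1 : (∏ i : {i : V // i ≠ z}, (if h : i.1 = z then c else l' ⟨i.1, h⟩) ^ (k i.1)) =
        ∏ i : {i : V // i ≠ z}, l' i ^ (k i.1) := by
      refine Finset.prod_congr rfl fun i _ => ?_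
      rw [dif_neg i.2]
    have e2 : (fun u => if h : u = z then c else l' ⟨u, h⟩) z = c := dif_pos rfl
    rw [e1, e2]
    by_cases hkz : k z = 0
    · rw [hkz, zpow_zero, one_mul]
      refine h2 (fun i => k i.1) (fun i => hk i.1) ?_
      intro h0
      apply hk0
      funext u
      by_cases hu : u = z
      · rw [hu, hkz]; rfl
      · exact congrFun h0 ⟨u, hu⟩
    · exact hF (fun i => k i.1) (k z) (fun i => hk i.1) (hk z) hkz
  · intro u w huw
    dsimp only
    split_ifs with hu hw hw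
    · exact absurd (hu.trans hw.symm) huw.ne
    · subst hu
      exact lab_rich_symm (hz ⟨w, hw⟩ huw)
    · subst hw
      exact hz ⟨u, hu⟩ huw.symm
    · exact h3 ⟨u, hu⟩ ⟨w, hw⟩ huw

theorem lab3 (hD : DEG) (hC : CTR) (hS : SUB) (hP : STP3) (hV : VTX3) : LAB3 := by
  have key : ∀ n : ℕ, ∀ (V : Type) [Fintype V] (G : SimpleGraph V) (K : ℤ) (y1 y2 : V → ℚ),
      Fintype.card V = n → ¬ HasK4Minor G → (∀ u, 0 < y1 u) → (∀ u, y1 u < y2 u) →
      ∃ l : V → ℚ, (∀ u, y1 u < l u ∧ l u < y2 u) ∧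
        (∀ k : V → ℤ, (∀ u, |k u| ≤ K) → k ≠ 0 → ∏ u, l u ^ (k u) ≠ 1) ∧
        ∀ u w, G.Adj u w → Rich (l u) (l w) := by
    intro n
    induction n using Nat.strong_induction_on with
    | _ n ih =>
    intro V _ G K y1 y2 hn hG hy1 hy2
    classical
    rcases isEmpty_or_nonempty V with hE | hE
    · exact ⟨fun _ => 1, fun u => (hE.false u).elim, fun k _ hk => (hk (Subsingleton.elim _ _)).elim,
        fun u => (hE.false u).elim⟩
    obtain ⟨z, x, y, hz⟩ := hD V G hG
    have hcard : Fintype.card {u : V // u ≠ z} < n := by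
      rw [← hn]
      exact Fintype.card_subtype_lt (x := z) (by simp)
    by_cases hA : G.Adj z x ∧ G.Adj z y ∧ x ≠ y
    · obtain ⟨hzx, hzy, hxy⟩ := hA
      let H : SimpleGraph {u : V // u ≠ z} :=
        { Adj := fun u w => G.Adj u w ∨ (u.1 = x ∧ w.1 = y) ∨ (u.1 = y ∧ w.1 = x)
          symm := ⟨by
            rintro u w (h | h | h)
            · exact Or.inl h.symm
            · exact Or.inr (Or.inr ⟨h.2, h.1⟩)
            · exact Or.inr (Or.inl ⟨h.2, h.1⟩)⟩
          loopless := ⟨by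
            rintro u (h | h | h)
            · exact G.loopless.irrefl _ h
            · exact hxy (h.1.symm.trans h.2)
            · exact hxy (h.2.symm.trans h.1)⟩ }
      have hH : ¬ HasK4Minor H := fun h => hG (hC V G z x y H hzx hzy hxy (fun u w h => h) h)
      obtain ⟨l', h1, h2, h3⟩ := ih _ hcard _ H K (fun u => y1 u) (fun u => y2 u) rfl hH
        (fun u => hy1 u) (fun u => hy2 u)
      obtain ⟨B, hB⟩ := lab2_bad K l'
      have hr : Rich (l' ⟨x, hzx.ne'⟩) (l' ⟨y, hzy.ne'⟩) := h3 _ _ (Or.inr (Or.inl ⟨rfl, rfl⟩))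
      obtain ⟨c, hcB, hc1, hc2, -, hcx, hcy⟩ := hP _ _ (y1 z) (y2 z) B hr (hy1 z) (hy2 z)
      refine lab3_ext V G K y1 y2 z l' h1 h2 (fun u w h => h3 u w (Or.inl h)) c ⟨hc1, hc2⟩
        (hB c ((hy1 z).trans hc1) hcB) ?_
      intro u hu
      rcases hz u hu with h | h
      · have hu' : u = ⟨x, hzx.ne'⟩ := Subtype.ext h
        rw [hu']
        exact hcx
      · have hu' : u = ⟨y, hzy.ne'⟩ := Subtype.ext h
        rw [hu']
        exact hcy
    · have hone : ∀ u w, G.Adj z u → G.Adj z w → u = w := by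
        intro u w hu hw
        by_contra huw
        apply hA
        rcases hz u hu with h | h <;> rcases hz w hw with h' | h'
        · exact absurd (h.trans h'.symm) huw
        · subst h h'
          exact ⟨hu, hw, huw⟩
        · subst h h'
          exact ⟨hw, hu, fun h => huw h.symm⟩
        · exact absurd (h.trans h'.symm) huw
      let H : SimpleGraph {u : V // u ≠ z} := G.comap Subtype.val
      have hH : ¬ HasK4Minor H := fun h => hG (hS V G z h)
      obtain ⟨l', h1, h2, h3⟩ := ih _ hcard _ H K (fun u => y1 u) (fun u => y2 u) rfl hH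
        (fun u => hy1 u) (fun u => hy2 u)
      obtain ⟨B, hB⟩ := lab2_bad K l'
      by_cases hN : ∃ x' : {u : V // u ≠ z}, G.Adj z x'
      · obtain ⟨x', hx'⟩ := hN
        obtain ⟨c, hcB, hc1, hc2, hcr⟩ := hV (l' x') (y1 z) (y2 z) B
          ((hy1 x').trans (h1 x').1) (hy1 z) (hy2 z)
        refine lab3_ext V G K y1 y2 z l' h1 h2 (fun u w h => h3 u w h) c ⟨hc1, hc2⟩
          (hB c ((hy1 z).trans hc1) hcB) ?_
        intro u hu
        have hu' : u = x' := Subtype.ext (hone _ _ hu hx')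
        rw [hu']
        exact hcr
      · obtain ⟨c, hcB, hc1, hc2, -⟩ := hV 1 (y1 z) (y2 z) B one_pos (hy1 z) (hy2 z)
        refine lab3_ext V G K y1 y2 z l' h1 h2 (fun u w h => h3 u w h) c ⟨hc1, hc2⟩
          (hB c ((hy1 z).trans hc1) hcB) ?_
        intro u hu
        exact absurd ⟨u, hu⟩ hN
  intro V _ G K y1 y2 hG hy1 hy2
  exact key _ V G K y1 y2 rfl hG hy1 hy2

end Pool.EBK
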